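import Mathlib
import Pool.Agent.H25.GpcDefs
import Pool.Agent.H25.Gpc2
import Pool.Agent.H25.Gpc3

namespace Pool.Agent.Results.MP_f2fe1e_co.NotClosed
open Pool.Agent.H25 Pool.Agent.H25.GpcDefs

theorem result (k : ℕ) (hk : 2 ≤ k) :
    (∃ (V : Type) (_ : Finite V) (G : SimpleGraph V), IntPCG k G ∧ ¬ IntPCG k Gᶜ) ∧
    (∃ (V : Type) (_ : Finite V) (G : SimpleGraph V), OrPCG k G ∧ ¬ OrPCG k Gᶜ) ∧
    (∃ (V : Type) (_ : Finite V) (G : SimpleGraph V), AndPCG k G ∧ ¬ AndPCG k Gᶜ) := by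
  have : Nonempty (Fin k) := ⟨⟨0, by omega⟩⟩
  refine ⟨⟨_, inferInstance, _, Gpc2.G_mem k, Gpc2.G_not k⟩, ?_, ?_⟩
  · obtain ⟨R, hR, h⟩ := Gpc3.not_or k
    exact ⟨_, inferInstance, _, Gpc3.H_or hk, by rwa [compl_compl]⟩
  · obtain ⟨R, hR, h⟩ := Gpc3.not_and k
    exact ⟨_, inferInstance, _, Gpc3.H_and hk, h⟩

end Pool.Agent.Results.MP_f2fe1e_co.NotClosed
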